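import Pool.Agent.R632.CZ.Disc

/-!
# One almost period on a finite flat disc forces `ℤ²`

Let `G` act geometrically on a proper CAT(0) space `X`. There is a constant `A > 0` such that: if an
element `g ∈ G` of infinite order moves the points of a flat disc of radius `r > A exp(A R)` by at
most `R`, then `g` is a member of a basis of a subgroup isomorphic to `ℤ²`. In particular this holds
if `g` moves the points of a flat plane by bounded distances. The flatness is not needed: if `g`
moves the vertices of a triangle by at most `R` and `g` is not in a `ℤ²` then the triangle is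
degenerate up to `A exp(A R)`.

Outline of the proof. The closing theorem of the starting library for invariant strips of unbounded
width gives, with its proof, that such strips for one element `g` force a `ℤ²` which contains `g`.
Suppose that `g` is not in a `ℤ²`. Then the centraliser of `g` almost fixes an axis `a` of `g`. Let
`x` be a point with `d(g x, x) ≤ R`. On the segment from the projection of `x` to `a` to `x`, on
which the displacement of `g` is at most `R` by convexity, take points `x_i` at distance `i L` from
`a` and `h_i ∈ G` with `h_i x_i` near the base point `x₀`. The conjugates `h_i g h_i⁻¹` move `x₀` by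
at most `R + C`; if there are more points than such conjugates then `h_i g h_i⁻¹ = h_j g h_j⁻¹` for
some `i < j`, so `h_j⁻¹ h_i` commutes with `g` and moves `x_i` near to `x_j`, although it almost
preserves the distance from `a`. So `x` is at distance at most `A exp(A R)` from every axis of `g`,
and three points near a line form a degenerate triangle.
-/

set_option autoImplicit false

namespace Pool.Agent.Results.MP_140312_al.AlmostPeriodicDiscs

open Metric Set

/-- The inequality of Bruhat and Tits: a complete metric space is CAT(0) if and only if any two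
points `p`, `q` have a midpoint `m` such that
`d(x, m)² ≤ (d(x, p)² + d(x, q)²) / 2 - d(p, q)² / 4` for all `x`. -/
def BruhatTits (X : Type*) [MetricSpace X] : Prop := ∀ p q : X, ∃ m : X, ∀ x : X,
  dist x m ^ 2 ≤ (dist x p ^ 2 + dist x q ^ 2) / 2 - dist p q ^ 2 / 4

/-- `f` is on the disc of radius `r` around the origin of the Euclidean plane an isometric
embedding: a flat disc of radius `r` in `X`. -/
def IsFlatDisc {X : Type*} [MetricSpace X] (f : EuclideanSpace ℝ (Fin 2) → X) (r : ℝ) : Prop :=
  ∀ z ∈ closedBall (0 : EuclideanSpace ℝ (Fin 2)) r,
    ∀ w ∈ closedBall (0 : EuclideanSpace ℝ (Fin 2)) r, dist (f z) (f w) = dist z w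

/-- Let `G` act geometrically (by isometries, properly discontinuously, cocompactly) on a proper
CAT(0) space `X`. There is a constant `A > 0` such that for every element `g` of infinite order and
every `R`:
(1) if `g` moves the points of a flat disc of radius `r > A exp(A R)` by at most `R`, then `g` is a
member of a basis of a subgroup isomorphic to `ℤ²`;
(2) if `g` moves the three vertices `x 0`, `x 1`, `x 2` of a triangle by at most `R` then `g` is a
member of a basis of a subgroup isomorphic to `ℤ²` or for one of the vertices the sum of the
distances to the other two exceeds the distance of the other two by at most `A exp(A R)`. -/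
theorem result {X : Type*} [MetricSpace X] [ProperSpace X] (hX : BruhatTits X)
    {G : Type*} [Group G] [MulAction G X] [IsIsometricSMul G X] [ProperlyDiscontinuousSMul G X]
    (hcc : ∃ K : Set X, IsCompact K ∧ ∀ x : X, ∃ g : G, g • x ∈ K) :
    ∃ A : ℝ, 0 < A ∧ ∀ (g : G) (R : ℝ), ¬ IsOfFinOrder g →
      (∀ (r : ℝ) (f : EuclideanSpace ℝ (Fin 2) → X), IsFlatDisc f r →
        (∀ z ∈ closedBall (0 : EuclideanSpace ℝ (Fin 2)) r, dist (g • f z) (f z) ≤ R) →
        A * Real.exp (A * R) < r →
          ∃ φ : Multiplicative (ℤ × ℤ) →* G, Function.Injective φ ∧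
            φ (Multiplicative.ofAdd (1, 0)) = g) ∧
      (∀ x : Fin 3 → X, (∀ i, dist (g • x i) (x i) ≤ R) →
        (∃ φ : Multiplicative (ℤ × ℤ) →* G, Function.Injective φ ∧
            φ (Multiplicative.ofAdd (1, 0)) = g) ∨
        ∃ i, dist (x i) (x (i + 1)) + dist (x i) (x (i + 2)) - dist (x (i + 1)) (x (i + 2)) ≤
          A * Real.exp (A * R)) := by
  have hG : Pool.Agent.Y34.HB.Geo X G := ⟨inferInstance, inferInstance, inferInstance, hcc, hX⟩
  obtain ⟨A, hA, h1⟩ := Pool.Agent.R632.CZ.disc hG
  obtain ⟨A', hA', h2⟩ := Pool.Agent.R632.CZ.thin hG
  refine ⟨max A A', lt_max_of_lt_left hA, fun g R hg => ⟨?_, ?_⟩⟩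
  · intro r f hf hd hr
    have hR : 0 ≤ R := dist_nonneg.trans (hd 0 (mem_closedBall_self
      (lt_of_le_of_lt (by positivity) hr).le))
    refine h1 g R r f hg hf hd (lt_of_le_of_lt ?_ hr)
    refine mul_le_mul (le_max_left _ _) (Real.exp_le_exp.2 ?_) (Real.exp_pos _).le
      (le_trans hA.le (le_max_left _ _))
    exact mul_le_mul_of_nonneg_right (le_max_left _ _) hR
  · intro x hx
    have hR : 0 ≤ R := dist_nonneg.trans (hx 0)
    by_cases hno : Pool.Agent.R632.CZ.InZ2 g
    · exact Or.inl hno
    · obtain ⟨i, hi⟩ := h2 g R x hg hno hx
      refine Or.inr ⟨i, hi.trans ?_⟩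
      refine mul_le_mul (le_max_right _ _) (Real.exp_le_exp.2 ?_) (Real.exp_pos _).le
        (le_trans hA'.le (le_max_right _ _))
      exact mul_le_mul_of_nonneg_right (le_max_right _ _) hR

end Pool.Agent.Results.MP_140312_al.AlmostPeriodicDiscs
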