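import Pool.Agent.R632.CZ.Strips

/-!
# Finitely many strips of finite width along an axis force `ℤ²`

Let `G` act geometrically on a proper CAT(0) space `X`. There is a constant `A > 0` such that for every
`g ∈ G` with an axis `c` of translation length `τ > 0`, all `m`, `D` and `W > A exp(A (m τ + D))`:

(1) if `c` bounds a flat strip of width `W` (which need not be invariant under any power of `g`) and
the points at depth `W` above `c(0)` of all such strips are in `m` balls of radius `D / 2`, then one of
the powers `g, g², …, g^m` is a member of a basis of a subgroup isomorphic to `ℤ²`;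

(2) if none of the powers `g, g², …, g^m` is in a `ℤ²` and `S` is a flat strip of width `W` bounded by
`c` then the strips `S, g S, …, g^m S` bounded by `c` are pairwise more than `D` apart at all depths
`s` with `A exp(A (m τ + D)) < s ≤ W`.

So along an axis of an element without powers in a `ℤ²` the number of the strips of width `W` which are
seen as different at depth `W` is zero or grows at least like `log W / (A τ)`.

Outline of the proof. The closing theorem of the starting library for invariant strips of unbounded
width gives, with its proof, that such strips for one element `h` force a `ℤ²` which contains `h`.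
Suppose that `h` is not in a `ℤ²`. Then the centraliser of `h` almost fixes an axis `a` of `h`. Let
`x` be a point with displacement `R = d(h x, x)`. On the segment from the projection of `x` to `a` to
`x` take points `x_i` at distance `i L` from `a` and `k_i ∈ G` with `k_i x_i` near the base point `x₀`.
The conjugates `k_i h k_i⁻¹` move `x₀` by at most `R + C`; if there are more points than such
conjugates then `k_j⁻¹ k_i` commutes with `h` for some `i < j` and moves `x_i` near to `x_j`,
although it almost preserves the distance from `a`. So `d(x, c) ≤ A exp(A d(h x, x))`. This is applied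
to `h = g^(j - i)` and the points of `S`: if `g^i S` and `g^j S` are within `D` at depth `s` then `h`
moves a point at depth `s` by at most `(j - i) τ + D`.
-/

set_option autoImplicit false

namespace Pool.Agent.Results.MP_140312_al.StripsAlongAxes

open Metric Set

/-- The inequality of Bruhat and Tits: a complete metric space is CAT(0) if and only if any two
points `p`, `q` have a midpoint `m` such that
`d(x, m)² ≤ (d(x, p)² + d(x, q)²) / 2 - d(p, q)² / 4` for all `x`. -/
def BruhatTits (X : Type*) [MetricSpace X] : Prop := ∀ p q : X, ∃ m : X, ∀ x : X,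
  dist x m ^ 2 ≤ (dist x p ^ 2 + dist x q ^ 2) / 2 - dist p q ^ 2 / 4

/-- `c` is an axis of `g` with translation length `τ`: a geodesic line on which `g` is the
translation by `τ`. -/
def IsAxis {X : Type*} [MetricSpace X] {G : Type*} [Group G] [MulAction G X] (g : G) (τ : ℝ)
    (c : ℝ → X) : Prop := Isometry c ∧ ∀ t, g • c t = c (t + τ)

/-- `S` is (on the set of the `(t, s)` with `0 ≤ s ≤ W`) a flat strip of width `W` bounded by the line
`c`: it preserves the distances of `ℝ × [0, W]` and `S (t, 0) = c(t)`. -/
def IsStrip {X : Type*} [MetricSpace X] (c : ℝ → X) (W : ℝ) (S : ℝ → ℝ → X) : Prop :=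
  (∀ t s t' s' : ℝ, 0 ≤ s → s ≤ W → 0 ≤ s' → s' ≤ W →
    dist (S t s) (S t' s') ^ 2 = (t - t') ^ 2 + (s - s') ^ 2) ∧ ∀ t, S t 0 = c t

/-- `g` is a member of a basis of a subgroup isomorphic to `ℤ²`. -/
def InZ2 {G : Type*} [Group G] (g : G) : Prop :=
  ∃ φ : Multiplicative (ℤ × ℤ) →* G, Function.Injective φ ∧ φ (Multiplicative.ofAdd (1, 0)) = g

/-- Let `G` act geometrically (by isometries, properly discontinuously, cocompactly) on a proper
CAT(0) space `X`. There is a constant `A > 0` such that the following holds for every `g ∈ G`, every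
axis `c` of `g` with translation length `τ > 0`, every `m`, every `D` and every
`W > A exp(A (m τ + D))`.
(1) If `c` bounds a flat strip of width `W` and the points `S (0, W)` of all the flat strips `S` of
width `W` bounded by `c` are in the union of `m` balls of radius `D / 2`, then `g ^ n` is a member of a
basis of a `ℤ²` for some `n` with `1 ≤ n ≤ m`.
(2) If this is not the case for any `n` with `1 ≤ n ≤ m` and `S` is a flat strip of width `W` bounded
by `c`, then the strips `g ^ i S` (parametrised so that they are bounded by `c`), `0 ≤ i ≤ m`, have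
pairwise distance larger than `D` at all `(t, s)` with `A exp(A (m τ + D)) < s ≤ W`. -/
theorem result {X : Type*} [MetricSpace X] [ProperSpace X] (hX : BruhatTits X)
    {G : Type*} [Group G] [MulAction G X] [IsIsometricSMul G X] [ProperlyDiscontinuousSMul G X]
    (hcc : ∃ K : Set X, IsCompact K ∧ ∀ x : X, ∃ g : G, g • x ∈ K) :
    ∃ A : ℝ, 0 < A ∧ ∀ (g : G) (τ : ℝ) (c : ℝ → X) (m : ℕ) (D W : ℝ), 0 < τ → IsAxis g τ c →
      A * Real.exp (A * (m * τ + D)) < W →
      ((∃ S, IsStrip c W S) →
        (∃ p : Fin m → X, ∀ S, IsStrip c W S → ∃ k, dist (S 0 W) (p k) ≤ D / 2) →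
          ∃ n : ℕ, 0 < n ∧ n ≤ m ∧ InZ2 (g ^ n)) ∧
      ((∀ n : ℕ, 0 < n → n ≤ m → ¬ InZ2 (g ^ n)) → ∀ S, IsStrip c W S →
        ∀ i j : ℕ, i ≤ m → j ≤ m → i ≠ j → ∀ t s : ℝ,
          A * Real.exp (A * (m * τ + D)) < s → s ≤ W →
            D < dist (g ^ i • S (t - i * τ) s) (g ^ j • S (t - j * τ) s)) := by
  have hG : Pool.Agent.Y34.HB.Geo X G := ⟨inferInstance, inferInstance, inferInstance, hcc, hX⟩
  obtain ⟨A, hA, h1⟩ := Pool.Agent.R632.CZ.strips_cover hG
  obtain ⟨A', hA', h2⟩ := Pool.Agent.R632.CZ.strips_diverge hG
  refine ⟨max A A', lt_max_of_lt_left hA, fun g τ c m D W hτ hc hW => ?_⟩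
  have hmono : ∀ a : ℝ, 0 < a → a ≤ max A A' → 0 ≤ (m : ℝ) * τ + D →
      a * Real.exp (a * (m * τ + D)) ≤ max A A' * Real.exp (max A A' * (m * τ + D)) := by
    intro a ha hle h0
    exact mul_le_mul hle (Real.exp_le_exp.2 (mul_le_mul_of_nonneg_right hle h0))
      (Real.exp_pos _).le (ha.le.trans hle)
  by_cases hpos : 0 ≤ D
  · have h0 : 0 ≤ (m : ℝ) * τ + D := by positivity
    refine ⟨fun hex ⟨p, hp⟩ => ?_, fun hno S hS i j hi hj hij t s hs hsW => ?_⟩
    · obtain ⟨S, hS, hS0⟩ := hex
      exact h1 g τ c m D W p hτ hc (lt_of_le_of_lt (hmono A hA (le_max_left _ _) h0) hW)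
        ⟨S, hS, hS0⟩ fun S hS hS0 => hp S ⟨hS, hS0⟩
    · exact h2 g τ c m hno hτ hc W S hS.1 hS.2 D i j hi hj hij t s
        (lt_of_le_of_lt (hmono A' hA' (le_max_right _ _) h0) hs) hsW
  · push Not at hpos
    refine ⟨fun ⟨S, hS⟩ ⟨p, hp⟩ => ?_, fun _ S _ i j _ _ _ t s _ _ =>
      lt_of_lt_of_le hpos dist_nonneg⟩
    obtain ⟨k, hk⟩ := hp S hS
    linarith [dist_nonneg (x := S 0 W) (y := p k)]

end Pool.Agent.Results.MP_140312_al.StripsAlongAxes
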