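import Pool.Agent.R632.CZ.Grow

/-!
# The width of the minimal sets of elements of a CAT(0) group without `ℤ²`

Let `G` act geometrically on a proper CAT(0) space `X`. An axis of `g ∈ G` with translation length
`τ > 0` is a geodesic line `c` with `g c(t) = c(t + τ)`; two axes of `g` are parallel and bound a flat
strip, the union of all of them is the minimal set of `g`.

Theorem: if two axes of one element `g` of translation length `τ` have distance larger than
`A exp(A τ)`, `A` a constant which depends only on the action, then `G` contains `ℤ²`. More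
precisely, if `G` contains no `ℤ²` then the distance of any two axes of `g` is at most `C` times the
number of the conjugates of `g` which move the base point `x₀` by at most `τ + C`.

Outline of the proof. Suppose that `G` contains no `ℤ²`. The starting library contains the
closing theorem for invariant strips of unbounded width with one period; so the centraliser of `g`
acts on the set of the axes of `g` with bounded orbits and almost fixes an axis `a`. Let `b` be
another axis of `g`. In the flat strip between `a` and `b` take the points `x_i` at distance `i L` from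
`a`, and `h_i ∈ G` with `h_i x_i` near `x₀`. The elements `h_i g h_i⁻¹` are conjugates of `g` which move
`x₀` by at most `τ + C`. If there are more points than such conjugates then `h_i g h_i⁻¹ = h_j g h_j⁻¹`
for some `i < j`, so `k = h_j⁻¹ h_i` commutes with `g` and moves `x_i` near to `x_j`. But `k` almost
preserves the distance from `a`, a contradiction.
-/

set_option autoImplicit false

namespace Pool.Agent.Results.MP_140312_al.WidthOfMinimalSets

open Metric Set Pool.Agent.R632.CZ

/-- The inequality of Bruhat and Tits: a complete metric space is CAT(0) if and only if any two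
points `p`, `q` have a midpoint `m` such that
`d(x, m)² ≤ (d(x, p)² + d(x, q)²) / 2 - d(p, q)² / 4` for all `x`. -/
def BruhatTits (X : Type*) [MetricSpace X] : Prop := ∀ p q : X, ∃ m : X, ∀ x : X,
  dist x m ^ 2 ≤ (dist x p ^ 2 + dist x q ^ 2) / 2 - dist p q ^ 2 / 4

/-- `c` is an axis of `g` with translation length `τ`: a geodesic line on which `g` is the
translation by `τ`. -/
def IsAxis {X : Type*} [MetricSpace X] {G : Type*} [Group G] [MulAction G X] (g : G) (τ : ℝ)
    (c : ℝ → X) : Prop := Isometry c ∧ ∀ t, g • c t = c (t + τ)

/-- Let `G` act geometrically (by isometries, properly discontinuously, cocompactly) on a proper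
CAT(0) space `X` and let `x₀` be a point of `X`. Then `G` contains a subgroup isomorphic to `ℤ²`, or
there are constants `C` and `A` such that for every element `g` of `G` of translation length `τ > 0`
the distance of any two axes of `g` is at most `C` times the number of conjugates `γ` of `g` with
`d(γ x₀, x₀) ≤ τ + C`, and at most `A exp(A τ)`. -/
theorem result {X : Type*} [MetricSpace X] [ProperSpace X] (hX : BruhatTits X)
    {G : Type*} [Group G] [MulAction G X] [IsIsometricSMul G X] [ProperlyDiscontinuousSMul G X]
    (hcc : ∃ K : Set X, IsCompact K ∧ ∀ x : X, ∃ g : G, g • x ∈ K) (x₀ : X) :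
    (∃ φ : Multiplicative (ℤ × ℤ) →* G, Function.Injective φ) ∨
    ∃ C A : ℝ, 0 < C ∧ 0 < A ∧ ∀ (g : G) (τ : ℝ) (c c' : ℝ → X), 0 < τ → IsAxis g τ c →
      IsAxis g τ c' →
        infDist (c 0) (range c') ≤ C * {γ : G | IsConj g γ ∧ dist (γ • x₀) x₀ ≤ τ + C}.ncard ∧
        infDist (c 0) (range c') ≤ A * Real.exp (A * τ) := by
  have hG : Pool.Agent.Y34.HB.Geo X G := ⟨inferInstance, inferInstance, inferInstance, hcc, hX⟩
  by_cases hno : ∃ φ : Multiplicative (ℤ × ℤ) →* G, Function.Injective φ
  · exact Or.inl hno
  · right
    obtain ⟨C, hC, hw⟩ := width hG hno x₀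
    obtain ⟨A, hA, hg⟩ := grow hG x₀
    refine ⟨C, max A (C * Real.exp (A * (C + 1))), hC, lt_max_of_lt_left hA,
      fun g τ c c' hτ hc hc' => ?_⟩
    have h1 := hw g τ c c' hτ hc hc'
    refine ⟨h1, h1.trans ?_⟩
    have h2 : (({γ : G | IsConj g γ ∧ dist (γ • x₀) x₀ ≤ τ + C}.ncard : ℕ) : ℝ) ≤
        Real.exp (A * (τ + C + 1)) := by
      refine le_trans ?_ (hg (τ + C) (by linarith))
      have hsub : {γ : G | IsConj g γ ∧ dist (γ • x₀) x₀ ≤ τ + C} ⊆
          {γ : G | dist (γ • x₀) x₀ ≤ τ + C} := fun γ hγ => hγ.2
      exact_mod_cast Set.ncard_le_ncard hsub (fin_ball hG x₀ (τ + C))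
    calc C * (({γ : G | IsConj g γ ∧ dist (γ • x₀) x₀ ≤ τ + C}.ncard : ℕ) : ℝ)
        ≤ C * Real.exp (A * (τ + C + 1)) := mul_le_mul_of_nonneg_left h2 hC.le
      _ = (C * Real.exp (A * (C + 1))) * Real.exp (A * τ) := by
        rw [mul_assoc, ← Real.exp_add]
        congr 2
        ring
      _ ≤ max A (C * Real.exp (A * (C + 1))) *
          Real.exp (max A (C * Real.exp (A * (C + 1))) * τ) := by
        refine mul_le_mul (le_max_right _ _) (Real.exp_le_exp.2 ?_) (Real.exp_pos _).le
          (le_trans hA.le (le_max_left _ _))
        exact mul_le_mul_of_nonneg_right (le_max_left _ _) hτ.le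

end Pool.Agent.Results.MP_140312_al.WidthOfMinimalSets
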